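import Pool.Agent.helper4.NF.SpecA

set_option autoImplicit false

open Complex MeasureTheory

namespace Pool.Agent.NF

open Pool.Agent.helper84.DM Pool.Agent.helper78.ED Pool.Agent.DH Pool.Agent.ZD

theorem GIN_kap (z z₀ : ℝ) : kap z ≤ 2 * (1 + (z - z₀) ^ 2) * kap z₀ := by
  unfold kap
  have h1 : 0 < 1 + z ^ 2 := by positivity
  have h2 : 0 < 1 + z₀ ^ 2 := by positivity
  rw [mul_one_div, div_le_div_iff₀ h1 h2]
  nlinarith [sq_nonneg (z - z₀), sq_nonneg z, sq_nonneg (z * (z - z₀)), sq_nonneg (2 * z - z₀)]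

theorem GIN_exp (b y₀ : ℝ) (hb : b ≤ 7) (hy : y₀ ≤ 7) :
    |Real.exp b - Real.exp y₀| ≤ Real.exp 7 * |b - y₀| := by
  have key : ∀ u v : ℝ, u ≤ v → v ≤ 7 → Real.exp v - Real.exp u ≤ Real.exp 7 * (v - u) := by
    intro u v huv hv
    have h1 : Real.exp u = Real.exp v * Real.exp (u - v) := by
      rw [← Real.exp_add]; ring_nf
    have h2 : u - v + 1 ≤ Real.exp (u - v) := Real.add_one_le_exp _
    have h3 : Real.exp v ≤ Real.exp 7 := Real.exp_le_exp.2 hv
    have h4 : 0 < Real.exp v := Real.exp_pos _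
    have h5 : Real.exp v - Real.exp u ≤ Real.exp v * (v - u) := by
      rw [h1]; nlinarith
    have h6 : Real.exp v * (v - u) ≤ Real.exp 7 * (v - u) :=
      mul_le_mul_of_nonneg_right h3 (by linarith)
    linarith
  rcases le_total b y₀ with h | h
  · rw [abs_sub_comm, abs_of_nonneg (sub_nonneg.2 (Real.exp_le_exp.2 h)), abs_sub_comm,
      abs_of_nonneg (sub_nonneg.2 h)]
    exact key b y₀ h hy
  · rw [abs_of_nonneg (sub_nonneg.2 (Real.exp_le_exp.2 h)), abs_of_nonneg (sub_nonneg.2 h)]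
    exact key y₀ b h hb

theorem GIN_gauss (T y₀ : ℝ) (hT : 0 < T) :
    Integrable (fun b : ℝ => Real.exp (-(T ^ 2 / 8) * (b - y₀) ^ 2)) ∧
      ∫ b : ℝ, Real.exp (-(T ^ 2 / 8) * (b - y₀) ^ 2) = Real.sqrt (8 * Real.pi) / T := by
  have hp : 0 < T ^ 2 / 8 := by positivity
  have hi : Integrable (fun b : ℝ => Real.exp (-(T ^ 2 / 8) * b ^ 2)) :=
    integrable_exp_neg_mul_sq hp
  refine ⟨hi.comp_sub_right y₀, ?_⟩
  rw [integral_sub_right_eq_self (fun b : ℝ => Real.exp (-(T ^ 2 / 8) * b ^ 2)) y₀,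
    integral_gaussian]
  rw [show Real.pi / (T ^ 2 / 8) = 8 * Real.pi / T ^ 2 by field_simp]
  rw [Real.sqrt_div (by positivity), Real.sqrt_sq hT.le]

theorem GIN : GIN_stmt := by
  refine ⟨16 * Real.exp 14 * Real.sqrt (8 * Real.pi), by positivity, ?_⟩
  intro T E α β y₀ hT hE hα hy
  have hT0 : 0 < T := by linarith
  have hE0 : 0 < E := by linarith
  set z₀ : ℝ := α * Real.exp y₀ + β with hz₀
  have hk0 : 0 ≤ kap z₀ := by unfold kap; positivity
  obtain ⟨hgi, hge⟩ := GIN_gauss T y₀ hT0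
  have hpt : ∀ b ∈ Set.Icc (-5 : ℝ) 5,
      Real.exp (-(T * (b - y₀)) ^ 2 / 4) * kap (α * Real.exp b + β) ≤
        16 * Real.exp 14 * E ^ 2 * kap z₀ * Real.exp (-(T ^ 2 / 8) * (b - y₀) ^ 2) := by
    intro b hb
    have h1 := GIN_kap (α * Real.exp b + β) z₀
    have h2 := GIN_exp b y₀ (by linarith [hb.2]) (by linarith [abs_le.1 hy])
    set x : ℝ := T * (b - y₀) with hx
    have h3 : |α * Real.exp b + β - z₀| ≤ E * Real.exp 7 * |x| := by
      rw [hz₀, show α * Real.exp b + β - (α * Real.exp y₀ + β) = α * (Real.exp b - Real.exp y₀) by ring,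
        abs_mul, hx, abs_mul, abs_of_pos hT0]
      calc |α| * |Real.exp b - Real.exp y₀| ≤ (E * T) * (Real.exp 7 * |b - y₀|) :=
            mul_le_mul hα h2 (abs_nonneg _) (by positivity)
        _ = E * Real.exp 7 * (T * |b - y₀|) := by ring
    have h4 : (α * Real.exp b + β - z₀) ^ 2 ≤ E ^ 2 * Real.exp 14 * x ^ 2 := by
      have h5 : (α * Real.exp b + β - z₀) ^ 2 ≤ (E * Real.exp 7 * |x|) ^ 2 := by
        rw [← sq_abs]
        exact pow_le_pow_left₀ (abs_nonneg _) h3 2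
      have h6 : Real.exp 14 = Real.exp 7 * Real.exp 7 := by rw [← Real.exp_add]; norm_num
      calc _ ≤ _ := h5
        _ = E ^ 2 * Real.exp 14 * x ^ 2 := by rw [h6, mul_pow, sq_abs]; ring
    have h7 : 1 ≤ E ^ 2 * Real.exp 14 := by
      have h8 : 1 ≤ E ^ 2 := by nlinarith
      have h9 : 1 ≤ Real.exp 14 := Real.one_le_exp (by norm_num)
      nlinarith
    have h10 : 1 + (α * Real.exp b + β - z₀) ^ 2 ≤ E ^ 2 * Real.exp 14 * (1 + x ^ 2) := by
      nlinarith
    have h11 : 1 + x ^ 2 ≤ 8 * Real.exp (x ^ 2 / 8) := by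
      have := Real.add_one_le_exp (x ^ 2 / 8)
      linarith
    have h12 : Real.exp (-x ^ 2 / 4) * Real.exp (x ^ 2 / 8) =
        Real.exp (-(T ^ 2 / 8) * (b - y₀) ^ 2) := by
      rw [← Real.exp_add, hx]
      congr 1
      ring
    have h13 : 0 < Real.exp (-x ^ 2 / 4) := Real.exp_pos _
    calc Real.exp (-x ^ 2 / 4) * kap (α * Real.exp b + β)
        ≤ Real.exp (-x ^ 2 / 4) * (2 * (1 + (α * Real.exp b + β - z₀) ^ 2) * kap z₀) :=
          mul_le_mul_of_nonneg_left h1 h13.le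
      _ ≤ Real.exp (-x ^ 2 / 4) * (2 * (E ^ 2 * Real.exp 14 * (8 * Real.exp (x ^ 2 / 8))) * kap z₀) := by
          apply mul_le_mul_of_nonneg_left _ h13.le
          apply mul_le_mul_of_nonneg_right _ hk0
          apply mul_le_mul_of_nonneg_left _ (by norm_num)
          exact h10.trans (mul_le_mul_of_nonneg_left h11 (by positivity))
      _ = 16 * Real.exp 14 * E ^ 2 * kap z₀ * (Real.exp (-x ^ 2 / 4) * Real.exp (x ^ 2 / 8)) := by ring
      _ = _ := by rw [h12]
  have hcont : Continuous (fun b : ℝ => Real.exp (-(T * (b - y₀)) ^ 2 / 4) *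
      kap (α * Real.exp b + β)) := by
    unfold kap
    have hd : ∀ b : ℝ, 1 + (α * Real.exp b + β) ^ 2 ≠ 0 := fun b => by positivity
    fun_prop (disch := exact hd _)
  have hcont2 : Continuous (fun b : ℝ => 16 * Real.exp 14 * E ^ 2 * kap z₀ *
      Real.exp (-(T ^ 2 / 8) * (b - y₀) ^ 2)) := by fun_prop
  have hle := intervalIntegral.integral_mono_on (show (-5 : ℝ) ≤ 5 by norm_num)
    (hcont.intervalIntegrable (μ := volume) (-5) 5) (hcont2.intervalIntegrable (μ := volume) (-5) 5) hpt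
  refine hle.trans ?_
  rw [intervalIntegral.integral_const_mul, intervalIntegral.integral_of_le (by norm_num)]
  have hsub : ∫ b in Set.Ioc (-5 : ℝ) 5, Real.exp (-(T ^ 2 / 8) * (b - y₀) ^ 2) ≤
      Real.sqrt (8 * Real.pi) / T := by
    rw [← hge]
    exact setIntegral_le_integral hgi (Filter.Eventually.of_forall fun b => (Real.exp_pos _).le)
  calc 16 * Real.exp 14 * E ^ 2 * kap z₀ *
        ∫ b in Set.Ioc (-5 : ℝ) 5, Real.exp (-(T ^ 2 / 8) * (b - y₀) ^ 2)
      ≤ 16 * Real.exp 14 * E ^ 2 * kap z₀ * (Real.sqrt (8 * Real.pi) / T) :=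
        mul_le_mul_of_nonneg_left hsub (by positivity)
    _ = _ := by ring

end Pool.Agent.NF
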